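import Mathlib
import Pool.Agent.FewNeg.Elim
import Pool.Agent.FewNeg.LevX

/-!
# Duality of monotone circuits, unions of circuits
-/

set_option autoImplicit false

namespace Pool.Agent.FewG

open Pool.Agent.FewNeg

variable {ι : Type}

/-- The dual function. -/
def dual (f : BF ι) : BF ι := fun x => !(f fun i => !(x i))

theorem dual_dual (f : BF ι) : dual (dual f) = f := by
  funext x
  simp [dual]

theorem SLP.dual {L : List (BF ι × ℕ)} {s t : ℕ} (h : SLP L s t) (ht : t = 0) :
    SLP (L.map fun p => (FewG.dual p.1, p.2)) s 0 := by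
  induction h with
  | nil => exact SLP.nil
  | @var L s t i _ ih =>
    rw [List.map_cons]
    have : FewG.dual (fun x : ι → Bool => x i) = fun x => x i := by
      funext x
      simp [FewG.dual]
    simp only [this]
    exact SLP.var i (ih ht)
  | @const L s t b _ ih =>
    rw [List.map_cons]
    have : FewG.dual (fun _ : ι → Bool => b) = fun _ => !b := by
      funext x
      simp [FewG.dual]
    simp only [this]
    exact SLP.const _ (ih ht)
  | @and L s t f g d e _ hf hg ih =>
    rw [List.map_cons]
    have : FewG.dual (fun x : ι → Bool => f x && g x) = fun x => FewG.dual f x || FewG.dual g x := by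
      funext x
      simp [FewG.dual]
    simp only [this]
    exact SLP.or (ih ht) (List.mem_map.2 ⟨_, hf, rfl⟩) (List.mem_map.2 ⟨_, hg, rfl⟩)
  | @or L s t f g d e _ hf hg ih =>
    rw [List.map_cons]
    have : FewG.dual (fun x : ι → Bool => f x || g x) = fun x => FewG.dual f x && FewG.dual g x := by
      funext x
      simp [FewG.dual]
    simp only [this]
    exact SLP.and (ih ht) (List.mem_map.2 ⟨_, hf, rfl⟩) (List.mem_map.2 ⟨_, hg, rfl⟩)
  | not _ hf ih => omega

theorem Computes.dual {s d : ℕ} {f : BF ι} (h : Computes s d 0 f) : Computes s d 0 (FewG.dual f) := by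
  obtain ⟨L, s', d', t', h1, h2, h3, h4, h5⟩ := h
  have ht : t' = 0 := by omega
  exact ⟨_, s', d', 0, SLP.dual h1 ht, List.mem_map.2 ⟨_, h2, rfl⟩, h3, h4, le_rfl⟩

theorem SLP.append {L₁ : List (BF ι × ℕ)} {s₁ t₁ : ℕ} (h₁ : SLP L₁ s₁ t₁) {L₂ : List (BF ι × ℕ)}
    {s₂ t₂ : ℕ} (h₂ : SLP L₂ s₂ t₂) : SLP (L₁ ++ L₂) (s₁ + s₂) (t₁ + t₂) := by
  induction h₁ with
  | nil => simpa using h₂
  | var i _ ih => exact SLP.var i ih
  | const b _ ih => exact SLP.const b ih
  | @and L s t f g d e _ hf hg ih =>
    have := SLP.and ih (List.mem_append_left _ hf) (List.mem_append_left _ hg)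
    rw [List.cons_append]
    convert this using 1
    omega
  | @or L s t f g d e _ hf hg ih =>
    have := SLP.or ih (List.mem_append_left _ hf) (List.mem_append_left _ hg)
    rw [List.cons_append]
    convert this using 1
    omega
  | @not L s t f d _ hf ih =>
    have := SLP.not ih (List.mem_append_left _ hf)
    rw [List.cons_append]
    convert this using 1
    omega

/-- The OR of several functions with monotone circuits. -/
theorem computes_or {Y : Type} [DecidableEq Y] {h : Y → BF ι} {s d : ℕ} (T : Finset Y)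
    (hh : ∀ y ∈ T, Computes s d 0 (h y)) {F : BF ι} (hF : ∀ u, F u = true ↔ ∃ y ∈ T, h y u = true) :
    Computes (T.card * (s + 1)) (d + Nat.clog 2 (T.card + 1)) 0 F := by
  have key : ∀ T : Finset Y, (∀ y ∈ T, Computes s d 0 (h y)) →
      ∃ (L : List (BF ι × ℕ)) (s' : ℕ) (hs : List (BF ι × ℕ)), SLP L s' 0 ∧ s' ≤ T.card * s ∧
        hs.length = T.card ∧ (∀ p ∈ hs, p ∈ L ∧ p.2 ≤ d) ∧
        ∀ u, (hs.any fun p => p.1 u) = true ↔ ∃ y ∈ T, h y u = true := by
    intro T
    induction T using Finset.induction_on with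
    | empty => exact fun _ => ⟨[], 0, [], SLP.nil, by simp, by simp, by simp, by simp⟩
    | insert a T ha ih =>
      intro hT
      obtain ⟨L, s', hs, h1, h2, h3, h4, h5⟩ := ih fun y hy => hT y (Finset.mem_insert_of_mem hy)
      obtain ⟨L', s'', d', t', g1, g2, g3, g4, g5⟩ := hT a (Finset.mem_insert_self a T)
      have ht' : t' = 0 := by omega
      subst ht'
      refine ⟨L' ++ L, s'' + s', (h a, d') :: hs, by simpa using SLP.append g1 h1, ?_, ?_, ?_, ?_⟩
      · rw [Finset.card_insert_of_notMem ha]
        nlinarith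
      · rw [Finset.card_insert_of_notMem ha, List.length_cons, h3]
      · intro p hp
        rcases List.mem_cons.1 hp with rfl | hp
        · exact ⟨List.mem_append_left _ g2, g4⟩
        · exact ⟨List.mem_append_right _ (h4 p hp).1, (h4 p hp).2⟩
      · intro u
        rw [List.any_cons, Bool.or_eq_true, h5 u]
        constructor
        · rintro (h6 | ⟨y, hy, h6⟩)
          · exact ⟨a, Finset.mem_insert_self a T, h6⟩
          · exact ⟨y, Finset.mem_insert_of_mem hy, h6⟩
        · rintro ⟨y, hy, h6⟩
          rcases Finset.mem_insert.1 hy with rfl | hy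
          · exact Or.inl h6
          · exact Or.inr ⟨y, hy, h6⟩
  obtain ⟨L, s', hs, h1, h2, h3, h4, h5⟩ := key T hh
  rcases Nat.eq_zero_or_pos T.card with h0 | h0
  · have hF0 : F = fun _ => false := by
      funext u
      rw [Bool.eq_false_iff, Ne, hF u]
      rintro ⟨y, hy, -⟩
      rw [Finset.card_eq_zero.1 h0] at hy
      simp at hy
    rw [hF0]
    exact ⟨_, 0, 0, 0, SLP.const false SLP.nil, List.mem_cons_self, Nat.zero_le _, Nat.zero_le _,
      le_rfl⟩
  · have hne : hs ≠ [] := by
      rw [← List.length_pos_iff, h3]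
      exact h0
    obtain ⟨L'', s'', e, a1, -, a3, a4, a5⟩ := SLP.orTree d (Nat.clog 2 (T.card + 1)) hs L s' hne
      (by
        rw [h3]
        exact le_trans (Nat.le_succ _) (Nat.le_pow_clog (by norm_num) _)) h1 h4
    have hM : (fun x => hs.any fun p => p.1 x) = F := by
      funext u
      rw [Bool.eq_iff_iff, h5 u, hF u]
    rw [hM] at a5
    refine ⟨L'', s'', e, 0, a1, a5, ?_, a4, le_rfl⟩
    rw [h3] at a3
    nlinarith

end Pool.Agent.FewG
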