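import Mathlib
import Pool.Agent.FewNeg.TADefs
import Pool.Agent.FewNeg.TBDefs
import Pool.Agent.FewNeg.TALang
import Pool.Agent.FewNeg.TBLang
import Pool.Agent.Book19.Comap
import Pool.Agent.BookPL.Comap
import Pool.Agent.FewG.Dual

/-!
# The dual of a language over the binary alphabet
-/

set_option autoImplicit false

namespace Pool.Agent.FewG

open Pool.Agent.FewNeg Pool.Agent.PT

/-- The dual of a language: the words such that the word with the opposite letters is not in the
language. -/
def coL (L : Set (List Bool)) : Set (List Bool) := {x | x.map not ∉ L}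

theorem slice_coL (L : Set (List Bool)) (n : ℕ) (x : Fin n → Bool) :
    slice (coL L) n x = !(slice L n fun i => !(x i)) := by
  have h : (List.ofFn x).map not = List.ofFn fun i => !(x i) := by
    rw [List.map_ofFn]
    rfl
  have h1 : List.ofFn x ∈ coL L ↔ ¬ (List.ofFn fun i => !(x i)) ∈ L := by
    change (List.ofFn x).map not ∉ L ↔ _
    rw [h]
  rw [Bool.eq_iff_iff, slice_eq_true, h1, Bool.not_eq_true', ← Bool.not_eq_true, slice_eq_true]

theorem coL_monotone {L : Set (List Bool)} {n : ℕ} (h : Monotone (slice L n)) :
    Monotone (slice (coL L) n) := by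
  intro x y hxy
  rw [slice_coL, slice_coL]
  have h1 : (fun i => !(y i)) ≤ fun i => !(x i) := by
    intro i
    exact (by decide : ∀ a b : Bool, a ≤ b → (!b) ≤ (!a)) _ _ (hxy i)
  have h2 := h h1
  revert h2
  cases slice L n (fun i => !(x i)) <;> cases slice L n (fun i => !(y i)) <;> simp

theorem inPL_coL {L : Set (List Bool)} (h : BookPL.InPL Bool L) : BookPL.InPL Bool (coL L) := by
  have h1 : BookPL.InPL Bool {u : List Bool | u.map not ∈ L} := by
    refine h.comap (fun u => u.map not) (fun n => n) BookPL.QB.id (fun u => by simp) fun a => ?_
    refine (UP.sym (!a) (UF.var 0)).congr fun u e => ?_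
    rw [List.getElem?_map]
    cases u[e 0]? with
    | none => simp
    | some b => cases a <;> cases b <;> simp
  exact h1.compl

theorem inP_coL {L : Set (List Bool)} (h : Book19.InP Bool L) : Book19.InP Bool (coL L) := by
  refine h.comap_not (fun u => u.map not) (fun u => u.length) (fun u p => !(u.getD p false))
    UF.len (fun a => ?_) fun u => ?_
  · have h1 : UP (fun (u : List Bool) e => u.getD (e 0) false = true) := by
      refine (UP.sym true (UF.var 0)).congr fun u e => ?_
      rw [List.getD_eq_getElem?_getD]
      cases u[e 0]? with
      | none => simp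
      | some b => simp
    cases a
    · refine h1.congr fun u e => ?_
      cases u.getD (e 0) false <;> simp
    · refine h1.not.congr fun u e => ?_
      cases u.getD (e 0) false <;> simp
  · refine List.ext_getElem (by simp) fun p h1 h2 => ?_
    simp only [List.length_map] at h1
    rw [List.getElem_map, List.getElem_map, List.getElem_range, List.getD_eq_getElem _ _ h1]

end Pool.Agent.FewG
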