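import Mathlib
import Pool.Agent.FewNeg.Defs

/-!
# Nondeterministic circuits which look at few zeros
-/

set_option autoImplicit false

namespace Pool.Agent.FewG

open Pool.Agent.FewNeg

/-- Functions of the values of the variables, the values of the negated variables, and a guess. -/
abbrev NF (ι γ : Type) : Type := (ι → Bool) → (ι → Bool) → γ → Bool

/-- Circuits over AND and OR (fan-in two) whose inputs are the variables, the negated variables, and
arbitrary functions of the guess and of the variables in `S`, as straight-line programs.
`NSLP S L s`: the list `L` (latest gate first) contains for every gate its value, as a function of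
the values `x` of the variables, the values `z` of the negated variables and the guess, and its
depth (the number of AND and OR gates on a longest path to it); `s` is the number of AND and OR
gates. -/
inductive NSLP {ι γ : Type} (S : Finset ι) : List (NF ι γ × ℕ) → ℕ → Prop
  | nil : NSLP S [] 0
  | var {L : List (NF ι γ × ℕ)} {s : ℕ} (i : ι) : NSLP S L s →
      NSLP S ((fun x _ _ => x i, 0) :: L) s
  | neg {L : List (NF ι γ × ℕ)} {s : ℕ} (i : ι) : NSLP S L s →
      NSLP S ((fun _ z _ => z i, 0) :: L) s
  | free {L : List (NF ι γ × ℕ)} {s : ℕ} (a : (ι → Bool) → γ → Bool)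
      (ha : ∀ x x' : ι → Bool, (∀ i ∈ S, x i = x' i) → a x = a x') : NSLP S L s →
      NSLP S ((fun x _ y => a x y, 0) :: L) s
  | and {L : List (NF ι γ × ℕ)} {s : ℕ} {f g : NF ι γ} {d e : ℕ} : NSLP S L s → (f, d) ∈ L →
      (g, e) ∈ L → NSLP S ((fun x z y => f x z y && g x z y, max d e + 1) :: L) (s + 1)
  | or {L : List (NF ι γ × ℕ)} {s : ℕ} {f g : NF ι γ} {d e : ℕ} : NSLP S L s → (f, d) ∈ L →
      (g, e) ∈ L → NSLP S ((fun x z y => f x z y || g x z y, max d e + 1) :: L) (s + 1)

/-- The Boolean function `f` is computed by a nondeterministic circuit `C` with at most `s` AND and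
OR gates, depth at most `d`, `g` guess bits, free functions of the guess bits and of the variables in
`S`, which looks at `w` zeros at most: (1) if `C` accepts `x` with some guess, then `f x = 1`;
(2) if `f x = 1` then `C` accepts `x` with some guess `y`, even when all negated variables outside
some set `B` of at most `w` variables are replaced by `0` (that is, `C` has an accepting proof tree
in which at most `w` variables occur negated). -/
def NDecides {n : ℕ} (S : Finset (Fin n)) (s d g w : ℕ) (f : BF (Fin n)) : Prop :=
  ∃ (L : List (NF (Fin n) (Fin g → Bool) × ℕ)) (s' : ℕ) (C : NF (Fin n) (Fin g → Bool)) (d' : ℕ),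
    NSLP S L s' ∧ (C, d') ∈ L ∧ s' ≤ s ∧ d' ≤ d ∧
    (∀ (x : Fin n → Bool) (y : Fin g → Bool), C x (fun i => !(x i)) y = true → f x = true) ∧
    (∀ x : Fin n → Bool, f x = true → ∃ (y : Fin g → Bool) (B : Finset (Fin n)), B.card ≤ w ∧
      C x (fun i => decide (i ∈ B) && !(x i)) y = true)

end Pool.Agent.FewG
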