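import Mathlib
import Pool.Agent.FewG.Dual
import Pool.Agent.FewNeg.LevElim

/-!
# Nondeterministic monotone circuits for an AND of copies need many guess bits
-/

set_option autoImplicit false

namespace Pool.Agent.FewG

open Pool.Agent.FewNeg

variable {ι α Y : Type}

/-- If every positive input of `F` is accepted by more than half of the functions `h y`, `y ∈ Z`,
then the positive inputs of `F` are covered by few of these functions. -/
theorem exists_cover [Fintype ι] [DecidableEq ι] [DecidableEq Y] (Z : Finset Y) (h : Y → BF ι)
    (F : BF ι)
    (hmore : ∀ u, F u = true → Z.card < 2 * (Z.filter (fun y => h y u = true)).card) :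
    ∀ k : ℕ, ∃ T : Finset Y, T ⊆ Z ∧ T.card ≤ k ∧
      2 ^ k * ((Finset.univ : Finset (ι → Bool)).filter
        (fun u => F u = true ∧ ∀ y ∈ T, h y u = false)).card ≤ 2 ^ Fintype.card ι := by
  classical
  intro k
  induction k with
  | zero =>
    refine ⟨∅, by simp, by simp, ?_⟩
    rw [pow_zero, one_mul]
    refine (Finset.card_le_univ _).trans (le_of_eq ?_)
    rw [Fintype.card_fun, Fintype.card_bool]
  | succ k ih =>
    obtain ⟨T, h1, h2, h3⟩ := ih
    set U := (Finset.univ : Finset (ι → Bool)).filter
        (fun u => F u = true ∧ ∀ y ∈ T, h y u = false) with hU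
    rcases Finset.eq_empty_or_nonempty U with h0 | h0
    · refine ⟨T, h1, by omega, ?_⟩
      rw [← hU, h0]
      simp
    -- double counting
    have hsum : ∑ u ∈ U, (Z.filter (fun y => h y u = true)).card =
        ∑ y ∈ Z, (U.filter (fun u => h y u = true)).card := by
      simp only [Finset.card_filter]
      rw [Finset.sum_comm]
    have hlt : ∑ u ∈ U, Z.card < ∑ u ∈ U, 2 * (Z.filter (fun y => h y u = true)).card := by
      refine Finset.sum_lt_sum_of_nonempty h0 fun u hu => ?_
      exact hmore u (Finset.mem_filter.1 hu).2.1
    have hex : ∃ y ∈ Z, U.card < 2 * (U.filter (fun u => h y u = true)).card := by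
      by_contra hcon
      push Not at hcon
      have h4 : ∑ y ∈ Z, 2 * (U.filter (fun u => h y u = true)).card ≤ ∑ y ∈ Z, U.card :=
        Finset.sum_le_sum fun y hy => hcon y hy
      rw [← Finset.mul_sum, ← hsum, Finset.mul_sum] at h4
      rw [Finset.sum_const, smul_eq_mul] at h4 hlt
      rw [Nat.mul_comm Z.card U.card] at h4
      omega
    obtain ⟨y, hy, h4⟩ := hex
    refine ⟨insert y T, Finset.insert_subset hy h1,
      (Finset.card_insert_le _ _).trans (by omega), ?_⟩
    have h5 : (Finset.univ : Finset (ι → Bool)).filter
        (fun u => F u = true ∧ ∀ y' ∈ insert y T, h y' u = false) =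
        U.filter (fun u => ¬ h y u = true) := by
      ext u
      simp only [hU, Finset.mem_filter, Finset.mem_univ, true_and, Finset.mem_insert,
        forall_eq_or_imp, Bool.not_eq_true]
      tauto
    rw [h5]
    have h6 := Finset.card_filter_add_card_filter_not (s := U) (fun u => h y u = true)
    rw [pow_succ]
    have h7 : 2 * (U.filter (fun u => ¬ h y u = true)).card ≤ U.card := by omega
    calc 2 ^ k * 2 * (U.filter (fun u => ¬ h y u = true)).card =
          2 ^ k * (2 * (U.filter (fun u => ¬ h y u = true)).card) := by ring
      _ ≤ 2 ^ k * U.card := Nat.mul_le_mul_left _ h7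
      _ ≤ _ := h3

/-- **The guess bits are used up.** If an AND of copies of `F` is the OR of fewer than
`2 ^ (number of copies)` functions with small monotone circuits then `F` has a small monotone
circuit. -/
theorem guess_lower [Fintype ι] [DecidableEq ι] [DecidableEq α] [DecidableEq Y] (A : Finset α)
    (Y₀ : Finset Y) {F : BF ι} {s d : ℕ} (φ : Y → BF (α × ι))
    (hφ : ∀ y ∈ Y₀, Computes s d 0 (φ y))
    (hsound : ∀ y ∈ Y₀, ∀ x, φ y x = true → ∀ a ∈ A, F (fun i => x (a, i)) = true)
    (hcomp : ∀ x : α × ι → Bool, (∀ a, a ∉ A → ∀ i, x (a, i) = true) →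
      (∀ a ∈ A, F (fun i => x (a, i)) = true) → ∃ y ∈ Y₀, φ y x = true)
    (hY : Y₀.card < 2 ^ A.card) :
    Computes ((Fintype.card ι + 1) * (s + 1)) (d + Nat.clog 2 (Fintype.card ι + 2)) 0 F := by
  classical
  by_contra hno
  have hF1 : F (fun _ => true) = true := by
    by_contra hF1
    -- then no positive tuple, unless `A` is empty
    have hFf : ∀ u, F u = true → False := by
      intro u hu
      -- take the tuple with all copies equal to `u`
      obtain ⟨y, hy, h1⟩ := hcomp (fun p => if p.1 ∈ A then u p.2 else true)
        (fun a ha i => by simp [ha]) (fun a ha => by simpa [ha] using hu)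
      have hmon : Monotone (φ y) := by
        obtain ⟨L, s', d', t', g1, g2, g3, g4, g5⟩ := hφ y hy
        exact g1.monotone (by omega) _ g2
      have h2 : φ y (fun _ => true) = true := by
        have h3 := hmon (fun p => Bool.le_true _ :
          (fun p : α × ι => if p.1 ∈ A then u p.2 else true) ≤ fun _ => true)
        rw [h1] at h3
        exact Bool.eq_true_of_true_le h3
      rcases Finset.eq_empty_or_nonempty A with hA | ⟨a, ha⟩
      · rw [hA, Finset.card_empty, pow_zero] at hY
        have : Y₀ = ∅ := Finset.card_eq_zero.1 (by omega)
        rw [this] at hy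
        simp at hy
      · exact hF1 (hsound y hy _ h2 a ha)
    apply hno
    have : F = fun _ => false := by
      funext u
      rw [Bool.eq_false_iff]
      exact fun hu => hFf u hu
    rw [this]
    exact ⟨_, 0, 0, 0, SLP.const false SLP.nil, List.mem_cons_self, Nat.zero_le _, Nat.zero_le _,
      le_rfl⟩
  have hmon : ∀ y ∈ Y₀, Monotone (φ y) := by
    intro y hy
    obtain ⟨L, s', d', t', g1, g2, g3, g4, g5⟩ := hφ y hy
    exact g1.monotone (by omega) _ g2
  have key : ∀ B : Finset α, B ⊆ A → ∃ x : α × ι → Bool, (∀ b, b ∉ B → ∀ i, x (b, i) = true) ∧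
      (∀ a ∈ A, F (fun i => x (a, i)) = true) ∧
      2 ^ B.card * (Y₀.filter (fun y => φ y x = true)).card ≤ Y₀.card := by
    intro B
    induction B using Finset.induction_on with
    | empty =>
      exact fun _ => ⟨fun _ => true, fun _ _ _ => rfl, fun _ _ => hF1, by
        rw [Finset.card_empty, pow_zero, one_mul]
        exact Finset.card_filter_le _ _⟩
    | insert a B ha ih =>
      intro hB
      obtain ⟨x, h1, h2, h3⟩ := ih ((Finset.subset_insert a B).trans hB)
      have haA : a ∈ A := hB (Finset.mem_insert_self a B)
      set Z := Y₀.filter (fun y => φ y x = true) with hZ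
      have hu : ∃ u, F u = true ∧ 2 * (Z.filter (fun y => φ y (upd x a u) = true)).card ≤ Z.card := by
        by_contra hcon
        push Not at hcon
        apply hno
        obtain ⟨T, g1, g2, g3⟩ := exists_cover Z (fun y u => φ y (upd x a u)) F
          (fun u hu => hcon u hu) (Fintype.card ι + 1)
        have hT : ∀ y ∈ T, y ∈ Y₀ := fun y hy => (Finset.mem_filter.1 (g1 hy)).1
        have h4 : ((Finset.univ : Finset (ι → Bool)).filter
            (fun u => F u = true ∧ ∀ y ∈ T, φ y (upd x a u) = false)).card = 0 := by
          by_contra hne
          have h5 := Nat.one_le_iff_ne_zero.2 hne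
          have h6 : 2 ^ (Fintype.card ι + 1) * 1 ≤ 2 ^ Fintype.card ι :=
            (Nat.mul_le_mul_left _ h5).trans g3
          rw [pow_succ] at h6
          have : 0 < 2 ^ Fintype.card ι := by positivity
          omega
        rw [Finset.card_eq_zero, Finset.filter_eq_empty_iff] at h4
        have h5 := computes_or (F := F) (s := s) (d := d) (h := fun y u => φ y (upd x a u)) T ?_ ?_
        · refine h5.mono (Nat.mul_le_mul_right _ g2) ?_ le_rfl
          exact Nat.add_le_add_left (Nat.clog_mono_right 2 (by omega)) d
        · intro y hy
          refine (hφ y (hT y hy)).subst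
            (fun p => if p.1 = a then Sum.inl p.2 else Sum.inr (x p)) ?_
          intro u
          have : (upd x a u) = fun p => Sum.elim u id
              ((if p.1 = a then Sum.inl p.2 else Sum.inr (x p)) : ι ⊕ Bool) := by
            funext p
            simp only [upd]
            split_ifs <;> rfl
          rw [this]
        · intro u
          constructor
          · intro hu
            by_contra hcon'
            push Not at hcon'
            exact h4 (Finset.mem_univ u) ⟨hu, fun y hy => by simpa using hcon' y hy⟩
          · rintro ⟨y, hy, h6⟩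
            have h7 := hsound y (hT y hy) _ h6 a haA
            have : (fun i => upd x a u (a, i)) = u := by
              funext i
              simp [upd]
            rwa [this] at h7
      obtain ⟨u, hu, h4⟩ := hu
      have hle : upd x a u ≤ x := by
        rintro ⟨b, i⟩
        unfold upd
        split_ifs with hb
        · simp only at hb
          rw [hb, h1 a ha i]
          exact Bool.le_true _
        · exact le_rfl
      refine ⟨upd x a u, ?_, ?_, ?_⟩
      · intro b hb i
        rw [Finset.mem_insert, not_or] at hb
        simp only [upd]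
        rw [if_neg hb.1]
        exact h1 b hb.2 i
      · intro b hb
        by_cases hba : b = a
        · have : (fun i => upd x a u (b, i)) = u := by
            funext i
            simp [upd, hba]
          rw [this, hu]
        · have : (fun i => upd x a u (b, i)) = fun i => x (b, i) := by
            funext i
            simp [upd, hba]
          rw [this, h2 b hb]
      · rw [Finset.card_insert_of_notMem ha]
        have h5 : Y₀.filter (fun y => φ y (upd x a u) = true) =
            Z.filter (fun y => φ y (upd x a u) = true) := by
          ext y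
          simp only [hZ, Finset.mem_filter]
          constructor
          · rintro ⟨g1, g2⟩
            have g3 := hmon y g1 hle
            rw [g2] at g3
            exact ⟨⟨g1, Bool.eq_true_of_true_le g3⟩, g2⟩
          · rintro ⟨⟨g1, -⟩, g2⟩
            exact ⟨g1, g2⟩
        rw [h5, pow_succ]
        calc 2 ^ B.card * 2 * (Z.filter (fun y => φ y (upd x a u) = true)).card =
              2 ^ B.card * (2 * (Z.filter (fun y => φ y (upd x a u) = true)).card) := by ring
          _ ≤ 2 ^ B.card * Z.card := Nat.mul_le_mul_left _ h4
          _ ≤ _ := h3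
  obtain ⟨x, h1, h2, h3⟩ := key A (Finset.Subset.refl A)
  obtain ⟨y, hy, h4⟩ := hcomp x h1 h2
  have h5 : 1 ≤ (Y₀.filter (fun y => φ y x = true)).card :=
    Finset.card_pos.2 ⟨y, Finset.mem_filter.2 ⟨hy, h4⟩⟩
  have h6 : 2 ^ A.card * 1 ≤ Y₀.card := (Nat.mul_le_mul_left _ h5).trans h3
  omega

end Pool.Agent.FewG
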