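import Mathlib
import Pool.Agent.FewG.Defs
import Pool.Agent.FewG.Guess
import Pool.Agent.FewG.Sub

/-!
# Nondeterministic circuits for an AND of blocks need many guess bits or look at many zeros
-/

set_option autoImplicit false

namespace Pool.Agent.FewG

open Pool.Agent.FewNeg

variable {ι κ γ : Type}

/-- The gates are monotone in the values of the negated variables. -/
theorem NSLP.mono {S : Finset ι} {L : List (NF ι γ × ℕ)} {s : ℕ} (h : NSLP S L s) :
    ∀ p ∈ L, ∀ (x z z' : ι → Bool) (y : γ), z ≤ z' → p.1 x z y ≤ p.1 x z' y := by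
  induction h with
  | nil => simp
  | var i _ ih =>
    intro p hp x z z' y hz
    rcases List.mem_cons.1 hp with rfl | hp
    · exact le_rfl
    · exact ih p hp x z z' y hz
  | neg i _ ih =>
    intro p hp x z z' y hz
    rcases List.mem_cons.1 hp with rfl | hp
    · exact hz i
    · exact ih p hp x z z' y hz
  | free a ha _ ih =>
    intro p hp x z z' y hz
    rcases List.mem_cons.1 hp with rfl | hp
    · exact le_rfl
    · exact ih p hp x z z' y hz
  | and _ hf hg ih =>
    intro p hp x z z' y hz
    rcases List.mem_cons.1 hp with rfl | hp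
    · exact and_mono' (ih _ hf x z z' y hz) (ih _ hg x z z' y hz)
    · exact ih p hp x z z' y hz
  | or _ hf hg ih =>
    intro p hp x z z' y hz
    rcases List.mem_cons.1 hp with rfl | hp
    · exact or_mono' (ih _ hf x z z' y hz) (ih _ hg x z z' y hz)
    · exact ih p hp x z z' y hz

/-- Fixing the variables in `S`, the guess, and the set `B` of the zeros. -/
theorem NSLP.toSLP [DecidableEq ι] {S : Finset ι} {L : List (NF ι γ × ℕ)} {s : ℕ} (h : NSLP S L s)
    (σ : ι → κ ⊕ Bool) (hσ : ∀ i ∈ S, σ i = Sum.inr true) (B : Finset ι) (hB : ∀ i ∈ B, i ∉ S)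
    (y : γ) :
    SLP (L.map fun p => ((fun v => p.1 (fun i => Sum.elim v id (σ i) && !(decide (i ∈ B)))
      (fun i => decide (i ∈ B)) y : BF κ), p.2)) s 0 := by
  induction h with
  | nil => exact SLP.nil
  | @var L s i _ ih =>
    rw [List.map_cons]
    by_cases hi : i ∈ B
    · have : ((fun v : κ → Bool => Sum.elim v id (σ i) && !(decide (i ∈ B))) : BF κ) =
          fun _ => false := by
        funext v; simp [hi]
      simp only [this]
      exact SLP.const false ih
    · rcases hσi : σ i with j | b
      · have : ((fun v : κ → Bool => Sum.elim v id (σ i) && !(decide (i ∈ B))) : BF κ) =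
            fun v => v j := by
          funext v; simp [hi, hσi]
        simp only [this]
        exact SLP.var j ih
      · have : ((fun v : κ → Bool => Sum.elim v id (σ i) && !(decide (i ∈ B))) : BF κ) =
            fun _ => b := by
          funext v; simp [hi, hσi]
        simp only [this]
        exact SLP.const b ih
  | @neg L s i _ ih =>
    rw [List.map_cons]
    exact SLP.const _ ih
  | @free L s a ha _ ih =>
    rw [List.map_cons]
    have : (fun v : κ → Bool => a (fun i => Sum.elim v id (σ i) && !(decide (i ∈ B))) y) =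
        fun _ => a (fun _ => true) y := by
      funext v
      refine congrFun (ha _ _ fun i hi => ?_) y
      have : i ∉ B := fun hiB => hB i hiB hi
      simp [hσ i hi, this]
    simp only [this]
    exact SLP.const _ ih
  | and _ hf hg ih =>
    rw [List.map_cons]
    exact SLP.and ih (List.mem_map.2 ⟨_, hf, rfl⟩) (List.mem_map.2 ⟨_, hg, rfl⟩)
  | or _ hf hg ih =>
    rw [List.map_cons]
    exact SLP.or ih (List.mem_map.2 ⟨_, hf, rfl⟩) (List.mem_map.2 ⟨_, hg, rfl⟩)

/-- Few guess bits and few zeros do not help for an AND of blocks. -/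
theorem NDecides.lower [Fintype κ] [DecidableEq κ] {α : Type} [DecidableEq α] {n : ℕ}
    {S : Finset (Fin n)} {s d g w : ℕ} {f : BF (Fin n)} (h : NDecides S s d g w f)
    (hmon : Monotone f) (A : Finset α) {F : BF κ}
    (σ : Fin n → (α × κ) ⊕ Bool) (hσ : ∀ i ∈ S, σ i = Sum.inr true)
    (hf : ∀ v : α × κ → Bool, f (fun i => Sum.elim v id (σ i)) = true ↔
      ∀ a ∈ A, F (fun i => v (a, i)) = true)
    (hA : (n + 1) ^ w * 2 ^ g < 2 ^ A.card) :
    Computes ((Fintype.card κ + 1) * (s + 1)) (d + Nat.clog 2 (Fintype.card κ + 2)) 0 F := by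
  classical
  obtain ⟨L, s', C, d', h1, h2, h3, h4, h5, h6⟩ := h
  -- the sets of at most `w` variables
  set Bs : (Fin w → Option (Fin n)) → Finset (Fin n) := fun u =>
    (Finset.univ.filter fun i => ∃ k, u k = some i) \ S with hBs
  have hsurj : ∀ B : Finset (Fin n), B.card ≤ w → (∀ i ∈ B, i ∉ S) → ∃ u, Bs u = B := by
    intro B hBw hBS
    obtain ⟨l, hl, hlB⟩ : ∃ l : List (Fin n), l.length ≤ w ∧ ∀ i, i ∈ l ↔ i ∈ B :=
      ⟨B.toList, by simpa using hBw, fun i => Finset.mem_toList⟩
    refine ⟨fun k => l[k.val]?, ?_⟩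
    ext i
    simp only [hBs, Finset.mem_sdiff, Finset.mem_filter, Finset.mem_univ, true_and]
    constructor
    · rintro ⟨⟨k, hk⟩, -⟩
      exact (hlB i).1 (List.mem_of_getElem? hk)
    · intro hi
      refine ⟨?_, hBS i hi⟩
      obtain ⟨k, hk, hk'⟩ := List.mem_iff_getElem.1 ((hlB i).2 hi)
      exact ⟨⟨k, by omega⟩, by
        simp only
        rw [List.getElem?_eq_getElem hk, hk']⟩
  have hBS : ∀ u, ∀ i ∈ Bs u, i ∉ S := fun u i hi => (Finset.mem_sdiff.1 hi).2
  have hcard : (Finset.univ : Finset ((Fin w → Option (Fin n)) × (Fin g → Bool))).card <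
      2 ^ A.card := by
    rw [Finset.card_univ, Fintype.card_prod, Fintype.card_fun, Fintype.card_fun,
      Fintype.card_option, Fintype.card_fin, Fintype.card_bool, Fintype.card_fin, Fintype.card_fin]
    exact hA
  refine guess_lower (Y := (Fin w → Option (Fin n)) × (Fin g → Bool)) A Finset.univ
    (fun q v => C (fun i => Sum.elim v id (σ i) && !(decide (i ∈ Bs q.1)))
      (fun i => decide (i ∈ Bs q.1)) q.2) ?_ ?_ ?_ hcard
  · rintro ⟨u, y⟩ -
    refine ⟨_, s', d', 0, h1.toSLP σ hσ (Bs u) (hBS u) y, ?_, h3, h4, le_rfl⟩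
    exact List.mem_map.2 ⟨_, h2, rfl⟩
  · rintro ⟨u, y⟩ - v hv
    simp only at hv
    rw [← hf]
    have h7 : C (fun i => Sum.elim v id (σ i) && !(decide (i ∈ Bs u)))
        (fun i => !(Sum.elim v id (σ i) && !(decide (i ∈ Bs u)))) y = true := by
      have h8 := h1.mono _ h2 (fun i => Sum.elim v id (σ i) && !(decide (i ∈ Bs u)))
        (fun i => decide (i ∈ Bs u))
        (fun i => !(Sum.elim v id (σ i) && !(decide (i ∈ Bs u)))) y (by
          intro i
          by_cases hi : i ∈ Bs u
          · simp [hi]
          · simp only [hi, decide_false]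
            exact Bool.false_le _)
      simp only at h8
      rw [hv] at h8
      exact Bool.eq_true_of_true_le h8
    have h8 := h5 _ _ h7
    have h9 := hmon (fun i => by
      by_cases hi : i ∈ Bs u
      · simp [hi]
      · simp [hi] : (fun i => Sum.elim v id (σ i) && !(decide (i ∈ Bs u))) ≤
      fun i => Sum.elim v id (σ i))
    rw [h8] at h9
    exact Bool.eq_true_of_true_le h9
  · intro v _ hv
    obtain ⟨y, B, hBw, h7⟩ := h6 _ ((hf v).2 hv)
    set B' := B.filter (fun i => Sum.elim v id (σ i) = false) with hB'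
    have hB'S : ∀ i ∈ B', i ∉ S := by
      intro i hi hiS
      rw [hB', Finset.mem_filter, hσ i hiS] at hi
      exact Bool.noConfusion hi.2
    obtain ⟨u, hu⟩ := hsurj B' ((Finset.card_filter_le _ _).trans hBw) hB'S
    refine ⟨(u, y), Finset.mem_univ _, ?_⟩
    simp only
    rw [hu]
    have e1 : (fun i => Sum.elim v id (σ i) && !(decide (i ∈ B'))) =
        fun i => Sum.elim v id (σ i) := by
      funext i
      by_cases hi : i ∈ B'
      · rw [hB', Finset.mem_filter] at hi
        rw [hi.2]
        rfl
      · simp [hi]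
    have e2 : (fun i => decide (i ∈ B')) = fun i => decide (i ∈ B) && !(Sum.elim v id (σ i)) := by
      funext i
      by_cases hi : i ∈ B
      · cases hc : (Sum.elim v id (σ i) : Bool)
        · simp [hB', hi, hc]
        · simp [hB', hc]
      · simp [hB', hi]
    rw [e1, e2]
    exact h7

end Pool.Agent.FewG
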