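import Mathlib
import Pool.Agent.FewNeg.AndrNum
import Pool.Agent.FewG.Main
import Pool.Agent.FewG.Lang

/-!
# Languages in POLYLOGSPACE which need many guess bits or looks at many zeros
-/

set_option autoImplicit false

namespace Pool.Agent.FewG

open Pool.Agent.FewNeg

/-- The opposite constants. -/
def flipS {ι κ : Type} (σ : ι → κ ⊕ Bool) : ι → κ ⊕ Bool := fun i => (σ i).map id not

/-- The block languages: from the OR of blocks to the AND of blocks. -/
theorem coL_lower {κ : Type} [Fintype κ] [DecidableEq κ] {L : Set (List Bool)} {n N : ℕ}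
    (hmon : Monotone (slice L n)) {F : BF κ} {S : Finset (Fin n)} {B : Finset (Fin N)}
    {σ : Fin n → (Fin N × κ) ⊕ Bool} (hσ : ∀ p ∈ S, σ p = Sum.inr false)
    (hL : ∀ y : Fin N × κ → Bool, slice L n (fun p => Sum.elim y id (σ p)) = orC B F y)
    {s d g w : ℕ} (h : NDecides S s d g w (slice (coL L) n))
    (hB : (n + 1) ^ w * 2 ^ g < 2 ^ B.card) :
    Computes ((Fintype.card κ + 1) * (s + 1)) (d + Nat.clog 2 (Fintype.card κ + 2)) 0 F := by
  have h1 := h.lower (coL_monotone hmon) B (F := dual F) (flipS σ) (fun i hi => by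
    unfold flipS
    rw [hσ i hi]
    rfl) (fun v => ?_) hB
  · have h2 := Computes.dual h1
    rwa [dual_dual] at h2
  · rw [slice_coL]
    have e : (fun i => !(Sum.elim v id (flipS σ i))) =
        fun p => Sum.elim (fun q => !(v q)) id (σ p) := by
      funext p
      unfold flipS
      rcases σ p with q | b
      · rfl
      · simp
    rw [e, hL]
    simp [orC, dual]

private theorem num_i (i : ℕ) (hi : 7 ≤ i) : 8 * i + 6 ≤ 2 ^ (i - 1) := by
  induction i, hi using Nat.le_induction with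
  | base => norm_num
  | succ i hi ih =>
    have h1 : 2 ^ (i + 1 - 1) = 2 * 2 ^ (i - 1) := by
      rw [← pow_succ']
      congr 1
      omega
    rw [h1]
    have h2 : 2 ^ 6 ≤ 2 ^ (i - 1) := Nat.pow_le_pow_right (by norm_num) (by omega)
    omega

private theorem num_final (i A s q a : ℕ) (hi7 : 7 ≤ i) (hA : 128 * A ≤ 2 ^ i) (hs : s < 2 ^ A)
    (ha : a = 2 ^ i + 5) (hq : q ≤ 2 * a ^ 4) : (q * q + 1) * (s + 1) < 2 ^ a := by
  have hh : 2 ^ i = 2 * 2 ^ (i - 1) := by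
    rw [← pow_succ']
    congr 1
    omega
  have e1 : a ≤ 2 ^ (i + 1) := by
    have h7 : 2 ^ 7 ≤ 2 ^ i := Nat.pow_le_pow_right (by norm_num) hi7
    rw [ha, pow_succ]
    omega
  have e2 : q * q + 1 ≤ 2 ^ (8 * i + 11) := by
    have e3 : q ≤ 2 * (2 ^ (i + 1)) ^ 4 := hq.trans
      (Nat.mul_le_mul_left _ (Nat.pow_le_pow_left e1 4))
    have e4 : 2 * (2 ^ (i + 1)) ^ 4 = 2 ^ (4 * i + 5) := by
      rw [← pow_mul, ← pow_succ']
      congr 1
      ring
    rw [e4] at e3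
    calc q * q + 1 ≤ 2 ^ (4 * i + 5) * 2 ^ (4 * i + 5) + 1 :=
          Nat.add_le_add_right (Nat.mul_le_mul e3 e3) 1
      _ = 2 ^ (8 * i + 10) + 1 := by
        rw [← pow_add]
        congr 2
        ring
      _ ≤ 2 ^ (8 * i + 10) + 2 ^ (8 * i + 10) := Nat.add_le_add_left (Nat.one_le_two_pow) _
      _ = _ := by rw [← Nat.two_mul, ← pow_succ']
  have e6 := num_i i hi7
  have h6 : 2 ^ 6 ≤ 2 ^ (i - 1) := Nat.pow_le_pow_right (by norm_num) (by omega)
  have e7 : 8 * i + 11 + A < a := by omega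
  have e8 : (q * q + 1) * (s + 1) ≤ 2 ^ (8 * i + 11 + A) := by
    rw [pow_add]
    exact Nat.mul_le_mul e2 hs
  exact lt_of_le_of_lt e8 (Nat.pow_lt_pow_right (by norm_num) e7)

theorem nltb_lower (c : ℕ) : ∃ C : ℕ, ∀ (n : ℕ) (S : Finset (Fin n)) (s d g w : ℕ),
    NDecides S s d g w (slice (coL (LTB (c + 8))) n) → s ≤ 2 ^ Nat.log 2 n ^ c →
      n ≤ C * (Nat.log 2 (Nat.log 2 n) + 1) * (g + w * (Nat.log 2 n + 1) + S.card + 1) *
        (Nat.log 2 s + 1) ^ 8 := by
  refine ⟨(2 * (c + 9) + 1) * (4 * 261 ^ 8), fun n S s d g w h hs => ?_⟩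
  by_contra hcon
  push Not at hcon
  set A := Nat.log 2 s + 1 with hA
  set L := Nat.log 2 n with hL
  set l := Nat.log 2 L with hl
  set N := g + w * (L + 1) + S.card + 1 with hN
  have hA1 : 1 ≤ A := by omega
  have h1 : s < 2 ^ A := Nat.lt_pow_succ_log_self (by norm_num) _
  set i := Nat.clog 2 (128 * A) with hi
  have h2 : 128 * A ≤ 2 ^ i := Nat.le_pow_clog (by norm_num) _
  have h3 : 2 ^ i ≤ 256 * A := by
    have h5 := Nat.pow_pred_clog_lt_self (b := 2) (x := 128 * A) (by norm_num) (by omega)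
    rw [Nat.pred_eq_sub_one, ← hi] at h5
    have h6 : 0 < i := by
      rw [hi]
      exact Nat.clog_pos (by norm_num) (by omega)
    have h7 : 2 ^ i = 2 * 2 ^ (i - 1) := by
      rw [← pow_succ', Nat.sub_add_cancel h6]
    omega
  have hi7 : 7 ≤ i := by
    by_contra hlt
    push Not at hlt
    have : 2 ^ i ≤ 2 ^ 6 := Nat.pow_le_pow_right (by norm_num) (by omega)
    omega
  have h4 : aT i ≤ 261 * A := by unfold aT; omega
  have h5 : qT i ^ 2 ≤ 4 * 261 ^ 8 * A ^ 8 := by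
    calc qT i ^ 2 ≤ (2 * aT i ^ 4) ^ 2 := Nat.pow_le_pow_left (qT_le i) 2
      _ ≤ (2 * (261 * A) ^ 4) ^ 2 :=
        Nat.pow_le_pow_left (Nat.mul_le_mul_left _ (Nat.pow_le_pow_left h4 4)) 2
      _ = _ := by ring
  have hS : sT (c + 8) n ≤ (2 * (c + 9) + 1) * (l + 1) := by
    unfold sT
    rw [← hL, ← hl]
    nlinarith
  have h6 : sT (c + 8) n * (N * (4 * 261 ^ 8 * A ^ 8)) ≤ n := by
    calc sT (c + 8) n * (N * (4 * 261 ^ 8 * A ^ 8)) ≤
        (2 * (c + 9) + 1) * (l + 1) * (N * (4 * 261 ^ 8 * A ^ 8)) :=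
          Nat.mul_le_mul_right _ hS
      _ = (2 * (c + 9) + 1) * (4 * 261 ^ 8) * (l + 1) * N * A ^ 8 := by ring
      _ ≤ n := hcon.le
  have hSpos : 0 < sT (c + 8) n := Nat.succ_pos _
  have h7 : N * (4 * 261 ^ 8 * A ^ 8) ≤ n / sT (c + 8) n :=
    (Nat.le_div_iff_mul_le hSpos).2 (by rw [mul_comm]; exact h6)
  have h8 : N * qT i ^ 2 ≤ n / sT (c + 8) n := (Nat.mul_le_mul_left _ h5).trans h7
  have hiS : i < sT (c + 8) n := by
    have h9 : A ≤ (L + 2) ^ (c + 1) := by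
      have h10 : Nat.log 2 s ≤ L ^ c := by
        calc Nat.log 2 s ≤ Nat.log 2 (2 ^ L ^ c) := Nat.log_mono_right hs
          _ = L ^ c := Nat.log_pow (by norm_num) _
      have h12 : L ^ c ≤ (L + 2) ^ c := Nat.pow_le_pow_left (by omega) c
      have h13 : 1 ≤ (L + 2) ^ c := Nat.one_le_pow _ _ (by omega)
      have h14 : (L + 2) ^ (c + 1) = (L + 2) ^ c * (L + 1) + (L + 2) ^ c := by ring
      have h15 : L + 1 ≤ (L + 2) ^ c * (L + 1) := Nat.le_mul_of_pos_left _ h13
      omega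
    have h10 : L + 2 ≤ 2 ^ (l + 2) := by
      have e1 : L < 2 ^ (l + 1) := Nat.lt_pow_succ_log_self (by norm_num) _
      have e2 : 2 ^ (l + 2) = 2 * 2 ^ (l + 1) := by rw [pow_succ 2 (l + 1)]; ring
      have e3 : 2 ≤ 2 ^ (l + 1) := by
        calc 2 = 2 ^ 1 := by norm_num
          _ ≤ _ := Nat.pow_le_pow_right (by norm_num) (by omega)
      omega
    have h11 : 128 * A ≤ 2 ^ (7 + (c + 1) * (l + 2)) := by
      rw [pow_add]
      refine Nat.mul_le_mul (by norm_num) ?_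
      calc A ≤ (L + 2) ^ (c + 1) := h9
        _ ≤ (2 ^ (l + 2)) ^ (c + 1) := Nat.pow_le_pow_left h10 _
        _ = _ := by rw [← pow_mul, mul_comm]
    have h12 : i ≤ 7 + (c + 1) * (l + 2) := (Nat.clog_le_iff_le_pow (by norm_num)).2 h11
    unfold sT
    rw [← hL, ← hl]
    have h13 : (c + 8 + 1) * (l + 2) = (c + 1) * (l + 2) + 8 * (l + 2) := by ring
    omega
  have hq : (qT i).Prime := qT_prime i
  obtain ⟨B, σ, g1, g2, -, g4⟩ := MS_sub (S := sT (c + 8)) (K := fun _ i => qT i ^ 2)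
    (G := fun _ i => GB i) hiS (posB_inj (qT i)) (posB_lt (qT i)) (andrF_zero hq.pos)
    (fun i' _ => Nat.pow_pos (qT_prime i').pos) (fun i' _ y hy => by
      unfold GB
      have e : (fun p => y (posB (qT i') p)) = fun _ => false := by
        funext p
        exact hy _ (posB_lt (qT i') p)
      rw [e]
      exact andrF_zero (qT_prime i').pos) (fun y => rfl) S (N := N) h8
  have hBc : (n + 1) ^ w * 2 ^ g < 2 ^ B.card := by
    have e1 : n + 1 ≤ 2 ^ (L + 1) := Nat.lt_pow_succ_log_self (by norm_num) _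
    calc (n + 1) ^ w * 2 ^ g ≤ (2 ^ (L + 1)) ^ w * 2 ^ g :=
          Nat.mul_le_mul_right _ (Nat.pow_le_pow_left e1 w)
      _ = 2 ^ (w * (L + 1) + g) := by rw [← pow_mul, ← pow_add, mul_comm w]
      _ < 2 ^ B.card := Nat.pow_lt_pow_right (by norm_num) (by omega)
  have hF := coL_lower (LTB_monotone (c + 8) n) g2 g4 h hBc
  rw [Fintype.card_prod, Fintype.card_fin] at hF
  have h9 := andr_size (aT i) (qT i) _ _ (by unfold aT; omega) hq (lt_qT i) (qT_le i) hF
  have h10 := num_final i A s (qT i) (aT i) hi7 h2 h1 rfl (qT_le i)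
  omega

end Pool.Agent.FewG
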